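import Mathlib
import Pool.Agent.H798.BV.Stm2

set_option autoImplicit false

/-!
# Task B2-PTW (helper798): one variable inequalities for `Θ(r) = (r^p - 1) + (p/2) (r⁻² - 1)`

With `t = log r` and `g x = exp x - 1 - x` one has `Θ = g (p t) + (p/2) g (-2 t)`.
-/

namespace Pool.Agent.H390.BV

open Pool.Agent.H798.BV Real

/-- `g x = exp x - 1 - x` -/
noncomputable def g (x : ℝ) : ℝ := exp x - 1 - x

lemma g_nonneg (x : ℝ) : 0 ≤ g x := by
  unfold g
  have := add_one_le_exp x
  linarith

lemma g_mul_le {s : ℝ} (h0 : 0 ≤ s) (h1 : s ≤ 1) (x : ℝ) : g (s * x) ≤ g x := by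
  have h2 := convexOn_exp.2 (Set.mem_univ x) (Set.mem_univ (0 : ℝ)) h0 (sub_nonneg.2 h1)
    (by ring : s + (1 - s) = 1)
  simp only [smul_eq_mul, mul_zero, add_zero, exp_zero, mul_one] at h2
  have h3 : g (s * x) ≤ s * g x := by
    unfold g
    nlinarith
  refine h3.trans ?_
  have := g_nonneg x
  nlinarith

lemma g_ge_sq {x : ℝ} (h : 0 ≤ x) : x ^ 2 / 2 ≤ g x := by
  unfold g
  have := quadratic_le_exp_of_nonneg h
  linarith

lemma g_ge_cub {x : ℝ} (h : |x| ≤ 1) : x ^ 2 / 2 - 2 / 9 * |x| ^ 3 ≤ g x := by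
  have h1 := Real.exp_bound h (n := 3) (by norm_num)
  rw [Finset.sum_range_succ, Finset.sum_range_succ, Finset.sum_range_succ, Finset.sum_range_zero] at h1
  have h2 := (abs_le.1 h1).1
  norm_num [Nat.factorial] at h2
  unfold g
  linarith

theorem t_PTW : S_PTW := by
  intro p hp2 hp3 η hη
  have hp0 : 0 < p := by linarith
  set a : ℝ := 2 * p / (p + 2) with ha
  have ha0 : 0 < a := by positivity
  set ρ : ℝ := η / (2 * a + 5 * η) with hρ
  have hρ0 : 0 < ρ := by positivity
  have hK : 0 < 1 / ρ := by positivity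
  refine ⟨1 / ρ + 3, by positivity, fun r Θ hr hΘ => ?_⟩
  set t : ℝ := Real.log r with ht
  have e1 : ∀ q : ℝ, r ^ q = exp (q * t) := fun q => by
    rw [rpow_def_of_pos hr, mul_comm]
  have e2 : (r ^ 2)⁻¹ = exp (-2 * t) := by
    have : (r ^ 2)⁻¹ = r ^ (-2 : ℝ) := by
      rw [rpow_neg hr.le]
      norm_num
    rw [this, e1]
  have e3 : r⁻¹ = exp (-t) := by
    rw [Real.exp_neg, ht, Real.exp_log hr]
  have hT : Θ = g (p * t) + p / 2 * g (-2 * t) := by
    rw [hΘ, e1, e2]
    unfold g
    ring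
  have g1 := g_nonneg (p * t)
  have g2 := g_nonneg (-2 * t)
  have hT0 : 0 ≤ Θ := by rw [hT]; positivity
  have hT1 : g (p * t) ≤ Θ := by
    rw [hT]
    have : 0 ≤ p / 2 * g (-2 * t) := by positivity
    linarith
  have hT2 : g (-2 * t) ≤ Θ := by
    rw [hT]
    nlinarith
  -- `Θ ≥ p t²`
  have hT3 : p * t ^ 2 ≤ Θ := by
    rcases le_total 0 t with h | h
    · have h1 := g_ge_sq (x := p * t) (by positivity)
      nlinarith [sq_nonneg t]
    · have h1 := g_ge_sq (x := -2 * t) (by linarith)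
      have h2 : p / 2 * ((-2 * t) ^ 2 / 2) ≤ p / 2 * g (-2 * t) :=
        mul_le_mul_of_nonneg_left h1 (by positivity)
      rw [hT]
      nlinarith
  have hsq : |t| ≤ √Θ := by
    apply Real.le_sqrt_of_sq_le
    rw [sq_abs]
    nlinarith [sq_nonneg t]
  have hs0 : 0 ≤ √Θ := Real.sqrt_nonneg _
  have gp : ∀ q : ℝ, 0 ≤ q → q ≤ p → g (q * t) ≤ Θ := by
    intro q h0 h1
    have h2 := g_mul_le (s := q / p) (by positivity) ((div_le_one hp0).2 h1) (p * t)
    have h3 : q / p * (p * t) = q * t := by field_simp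
    rw [h3] at h2
    exact h2.trans hT1
  have gm : g (-t) ≤ Θ := by
    have h2 := g_mul_le (s := 1 / 2) (by norm_num) (by norm_num) (-2 * t)
    have h3 : (1 / 2 : ℝ) * (-2 * t) = -t := by ring
    rw [h3] at h2
    exact h2.trans hT2
  have ab : ∀ x : ℝ, exp x = 1 + x + g x := fun x => by unfold g; ring
  refine ⟨hT0, ?_, ?_, ?_, ?_⟩
  · rw [e1, ab]
    have h1 := gp (p - 2) (by linarith) (by linarith)
    have h2 := g_nonneg ((p - 2) * t)
    have h3 : |(p - 2) * t| ≤ √Θ := by
      rw [abs_mul, abs_of_nonneg (by linarith : (0 : ℝ) ≤ p - 2)]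
      have := abs_nonneg t
      nlinarith
    have h4 : |1 + (p - 2) * t + g ((p - 2) * t) - 1| ≤ √Θ + Θ := by
      have h5 : 1 + (p - 2) * t + g ((p - 2) * t) - 1 = (p - 2) * t + g ((p - 2) * t) := by ring
      rw [h5]
      refine (abs_add_le _ _).trans (add_le_add h3 ?_)
      rw [abs_of_nonneg h2]
      exact h1
    refine h4.trans ?_
    nlinarith [mul_nonneg hK.le (add_nonneg hT0 hs0)]
  · rw [e2, ab]
    have h4 : |1 + -2 * t + g (-2 * t) - 1| ≤ 2 * √Θ + Θ := by
      have h5 : 1 + -2 * t + g (-2 * t) - 1 = -2 * t + g (-2 * t) := by ring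
      rw [h5]
      refine (abs_add_le _ _).trans (add_le_add ?_ ?_)
      · rw [abs_mul, abs_neg, abs_two]
        linarith
      · rw [abs_of_nonneg g2]
        exact hT2
    refine h4.trans ?_
    nlinarith [mul_nonneg hK.le (add_nonneg hT0 hs0)]
  · intro hr2
    have h1 : 4 ≤ (r ^ 2)⁻¹ := by
      rw [le_inv_comm₀ (by norm_num) (by positivity)]
      nlinarith
    have h2 : 0 ≤ r ^ p := by positivity
    have h3 : (r ^ 2)⁻¹ ≤ 2 * Θ := by
      rw [hΘ]
      nlinarith
    refine h3.trans ?_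
    nlinarith [mul_nonneg hK.le hT0]
  · rw [e1, e3, ab ((p - 1) * t), ab (-t)]
    have h1 := gp (p - 1) (by linarith) (by linarith)
    have h2 := g_nonneg ((p - 1) * t)
    have h3 := g_nonneg (-t)
    have h4 : |1 + (p - 1) * t + g ((p - 1) * t) - (1 + -t + g (-t))| ≤ p * |t| + Θ := by
      have h5 : 1 + (p - 1) * t + g ((p - 1) * t) - (1 + -t + g (-t)) =
          p * t + (g ((p - 1) * t) - g (-t)) := by ring
      rw [h5]
      refine (abs_add_le _ _).trans (add_le_add ?_ ?_)
      · rw [abs_mul, abs_of_pos hp0]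
      · rw [abs_le]
        constructor <;> linarith
    refine h4.trans ?_
    have h6 : p * |t| ≤ √((a + η) * Θ) + 1 / ρ * Θ := by
      have hs1 : 0 ≤ √((a + η) * Θ) := Real.sqrt_nonneg _
      rcases le_or_gt |t| ρ with h | h
      · have hr1 : ρ ≤ 1 / 5 := by
          rw [hρ, div_le_iff₀ (by positivity)]
          linarith
        have k1 := g_ge_cub (x := p * t) (by
          rw [abs_mul, abs_of_pos hp0]
          nlinarith [abs_nonneg t])
        have k2 := g_ge_cub (x := -2 * t) (by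
          rw [abs_mul, abs_neg, abs_two]
          nlinarith [abs_nonneg t])
        rw [abs_mul, abs_of_pos hp0] at k1
        rw [abs_mul, abs_neg, abs_two] at k2
        have k3 : p * (p + 2) / 2 * t ^ 2 * (1 - 2 * |t|) ≤ Θ := by
          have k4 : p / 2 * ((-2 * t) ^ 2 / 2 - 2 / 9 * (2 * |t|) ^ 3) ≤ p / 2 * g (-2 * t) :=
            mul_le_mul_of_nonneg_left k2 (by positivity)
          have k5 : p * (p + 2) / 2 * t ^ 2 * (1 - 2 * |t|) ≤
              ((p * t) ^ 2 / 2 - 2 / 9 * (p * |t|) ^ 3) +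
                p / 2 * ((-2 * t) ^ 2 / 2 - 2 / 9 * (2 * |t|) ^ 3) := by
            have k6 : t ^ 2 = |t| ^ 2 := (sq_abs t).symm
            have k7 : ((p * t) ^ 2 / 2 - 2 / 9 * (p * |t|) ^ 3) +
                p / 2 * ((-2 * t) ^ 2 / 2 - 2 / 9 * (2 * |t|) ^ 3) -
                p * (p + 2) / 2 * t ^ 2 * (1 - 2 * |t|) =
                p * |t| ^ 3 * ((p + 2) - 2 / 9 * (p ^ 2 + 4)) := by
              have k8 : (p * t) ^ 2 = p ^ 2 * |t| ^ 2 := by rw [mul_pow, k6]
              have k9 : (-2 * t) ^ 2 = 4 * |t| ^ 2 := by rw [mul_pow, k6]; norm_num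
              rw [k8, k9, k6]
              ring
            have k8 : 0 ≤ p * |t| ^ 3 * ((p + 2) - 2 / 9 * (p ^ 2 + 4)) := by
              have : 0 ≤ (p + 2) - 2 / 9 * (p ^ 2 + 4) := by nlinarith
              positivity
            linarith
          rw [hT]
          linarith
        have k4 : (p * |t|) ^ 2 ≤ (a + η) * Θ := by
          have k5 : (p * |t|) ^ 2 = a * (p * (p + 2) / 2 * t ^ 2) := by
            rw [mul_pow, sq_abs, ha]
            field_simp
          have k6 : a ≤ (a + η) * (1 - 2 * |t|) := by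
            have k7 : a ≤ (a + η) * (1 - 2 * ρ) := by
              have k8 : (a + η) * (2 * ρ) ≤ η := by
                rw [hρ]
                have : (a + η) * (2 * (η / (2 * a + 5 * η))) =
                    η * ((2 * (a + η)) / (2 * a + 5 * η)) := by ring
                rw [this]
                have k9 : (2 * (a + η)) / (2 * a + 5 * η) ≤ 1 := by
                  rw [div_le_one (by positivity)]
                  linarith
                nlinarith
              linarith
            refine k7.trans (mul_le_mul_of_nonneg_left (by linarith) (by positivity))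
          have k7 : 0 ≤ p * (p + 2) / 2 * t ^ 2 := by positivity
          calc (p * |t|) ^ 2 = a * (p * (p + 2) / 2 * t ^ 2) := k5
            _ ≤ (a + η) * (1 - 2 * |t|) * (p * (p + 2) / 2 * t ^ 2) :=
              mul_le_mul_of_nonneg_right k6 k7
            _ = (a + η) * (p * (p + 2) / 2 * t ^ 2 * (1 - 2 * |t|)) := by ring
            _ ≤ (a + η) * Θ := mul_le_mul_of_nonneg_left k3 (by positivity)
        have k5 : p * |t| ≤ √((a + η) * Θ) := Real.le_sqrt_of_sq_le k4
        have k6 : 0 ≤ 1 / ρ * Θ := by positivity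
        linarith
      · have k1 : p * |t| ≤ 1 / ρ * Θ := by
          rw [one_div, inv_mul_eq_div, le_div_iff₀ hρ0]
          calc p * |t| * ρ ≤ p * |t| * |t| := mul_le_mul_of_nonneg_left h.le (by positivity)
            _ = p * t ^ 2 := by rw [mul_assoc, ← sq, sq_abs]
            _ ≤ Θ := hT3
        linarith
    linarith

end Pool.Agent.H390.BV
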